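import Pool.Agent.BER.Stmts

/-!
# BER, row LPC: the chain rule
-/

namespace Pool.Agent.BER.H40

open Set Filter Topology MeasureTheory
open Pool.Agent.BER

noncomputable section

theorem lp_diff {M : Type} [NormedAddCommGroup M] [NormedSpace ℝ M] {N e : ℕ}
    {P : ℝ → ℝ → ℝ → M} (hP : P ∈ LP M N e) :
    Differentiable ℝ (fun z : ℝ × ℝ × ℝ => P z.1 z.2.1 z.2.2) := by
  refine Submodule.span_induction (p := fun P _ =>
    Differentiable ℝ (fun z : ℝ × ℝ × ℝ => (P : ℝ → ℝ → ℝ → M) z.1 z.2.1 z.2.2))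
    ?_ ?_ ?_ ?_ hP
  · rintro P ⟨k, b, j, s, x, -, -, rfl⟩
    have h1 : Differentiable ℝ (fun z : ℝ × ℝ × ℝ => tg s j z.1) := by
      cases s
      · show Differentiable ℝ (fun z : ℝ × ℝ × ℝ => Real.cos (j * z.1))
        fun_prop
      · show Differentiable ℝ (fun z : ℝ × ℝ × ℝ => Real.sin (j * z.1))
        fun_prop
    have h2 : Differentiable ℝ (fun z : ℝ × ℝ × ℝ => z.2.1 ^ k * z.2.2 ^ b) := by fun_prop
    exact (h2.mul h1).smul_const x
  · exact differentiable_const _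
  · intro P Q _ _ hp hq
    exact hp.add hq
  · intro a P _ hp
    exact hp.const_smul a

/-- LPC -/
theorem lpc : LpcStmt := by
  intro M _ _ p N e ω hp P hP t ht
  have hd := (lp_diff hP) (ω * t, 1 / t, Real.log t)
  set D := fderiv ℝ (fun z : ℝ × ℝ × ℝ => P z.1 z.2.1 z.2.2) (ω * t, 1 / t, Real.log t) with hD
  have hF : HasFDerivAt (fun z : ℝ × ℝ × ℝ => P z.1 z.2.1 z.2.2) D
    (ω * t, 1 / t, Real.log t) := hd.hasFDerivAt
  have ht0 : t ≠ 0 := ht.ne'
  have c1 : HasDerivAt (fun r : ℝ => (ω * r, 1 / r, Real.log r)) (ω, -(1 / t ^ 2), 1 / t) t := by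
    have a1 : HasDerivAt (fun r : ℝ => ω * r) ω t := by
      simpa using (hasDerivAt_id t).const_mul ω
    have a2 : HasDerivAt (fun r : ℝ => 1 / r) (-(1 / t ^ 2)) t := by
      have := hasDerivAt_inv ht0
      simpa [one_div] using this
    have a3 : HasDerivAt (fun r : ℝ => Real.log r) (1 / t) t := by
      simpa [one_div] using Real.hasDerivAt_log ht0
    exact a1.prodMk (a2.prodMk a3)
  have e1 : q1 P (ω * t) (1 / t) (Real.log t) = D (1, 0, 0) := by
    have b1 : HasDerivAt (fun s : ℝ => (s, (1 / t : ℝ), Real.log t)) (1, 0, 0) (ω * t) :=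
      (hasDerivAt_id _).prodMk ((hasDerivAt_const _ _).prodMk (hasDerivAt_const _ _))
    exact (hF.comp_hasDerivAt (ω * t) b1).deriv
  have e2 : q2 P (ω * t) (1 / t) (Real.log t) = D (0, 1, 0) := by
    have b1 : HasDerivAt (fun s : ℝ => ((ω * t : ℝ), s, Real.log t)) (0, 1, 0) (1 / t) :=
      (hasDerivAt_const _ _).prodMk ((hasDerivAt_id _).prodMk (hasDerivAt_const _ _))
    exact (hF.comp_hasDerivAt (1 / t) b1).deriv
  have e3 : q3 P (ω * t) (1 / t) (Real.log t) = D (0, 0, 1) := by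
    have b1 : HasDerivAt (fun s : ℝ => ((ω * t : ℝ), (1 / t : ℝ), s)) (0, 0, 1) (Real.log t) :=
      (hasDerivAt_const _ _).prodMk ((hasDerivAt_const _ _).prodMk (hasDerivAt_id _))
    exact (hF.comp_hasDerivAt (Real.log t) b1).deriv
  have hc : HasDerivAt (fun r : ℝ => P (ω * r) (1 / r) (Real.log r))
      (D (ω, -(1 / t ^ 2), 1 / t)) t := by
    have hc0 := HasFDerivAt.comp_hasDerivAt (f := fun r : ℝ => (ω * r, 1 / r, Real.log r)) t hF c1
    exact hc0
  have hDv : D (ω, -(1 / t ^ 2), 1 / t) =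
      ω • D (1, 0, 0) + (-(1 / t ^ 2)) • D (0, 1, 0) + (1 / t) • D (0, 0, 1) := by
    rw [← D.map_smul, ← D.map_smul, ← D.map_smul, ← D.map_add, ← D.map_add]
    congr 1
    simp
  have hr := Real.hasDerivAt_rpow_const (p := -(1 / (2 * (p : ℝ)))) (Or.inl ht0)
  have hm := hr.smul hc
  refine hm.congr_deriv ?_
  rw [hDv, Real.rpow_sub_one ht0]
  unfold Dt
  rw [e1, e2, e3]
  module

end

end Pool.Agent.BER.H40
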